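import Pool.Agent.Q66.SH.Stm2

set_option autoImplicit false

open Filter Topology
open scoped ENNReal

namespace Pool.Agent.Q113.SH

open Pool.Agent.Q66.SH

theorem t_GREEDY : S_GREEDY := by
  intro H _ _ _ T hT V hVc hV hinv
  have hcV : CompleteSpace V := hVc.completeSpace_coe
  have hnt : Nontrivial V := Submodule.nontrivial_iff_ne_bot.2 hV
  let B : H →L[ℂ] H := (ContinuousLinearMap.adjoint T).comp T
  have hBapp : ∀ x, B x = ContinuousLinearMap.adjoint T (T x) := fun x => rfl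
  have hB : IsCompactOperator B := hT.clm_comp (ContinuousLinearMap.adjoint T)
  have hBin : ∀ x y, inner ℂ x (B y) = inner ℂ (T x) (T y) := by
    intro x y
    rw [hBapp, ContinuousLinearMap.adjoint_inner_right]
  have hBin' : ∀ x y, inner ℂ (B x) y = inner ℂ (T x) (T y) := by
    intro x y
    rw [hBapp, ContinuousLinearMap.adjoint_inner_left]
  have hBs : (B : H →ₗ[ℂ] H).IsSymmetric := by
    intro x y
    show inner ℂ (B x) y = inner ℂ x (B y)
    rw [hBin, hBin']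
  have hinv' : ∀ x ∈ V, (B : H →ₗ[ℂ] H) x ∈ V := hinv
  let A : V →L[ℂ] V := B.restrict hinv'
  have hAapp : ∀ x : V, ((A x : V) : H) = B x := fun x => rfl
  have hA : IsCompactOperator A := hB.restrict' hinv'
  have hAs : (A : V →ₗ[ℂ] V).IsSymmetric := hBs.restrict_invariant hinv'
  have hr : spectralRadius ℂ A = ‖A‖₊ := A.spectralRadius_eq_nnnorm hAs.isSelfAdjoint
  obtain ⟨μ, hμ, hμn⟩ := spectrum.exists_nnnorm_eq_spectralRadius A
  rw [hr] at hμn
  have hμn' : ‖μ‖ = ‖A‖ := by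
    have h1 : ‖μ‖₊ = ‖A‖₊ := by exact_mod_cast hμn
    exact congrArg NNReal.toReal h1
  obtain ⟨x, hx1, hxμ⟩ : ∃ x : V, ‖x‖ = 1 ∧ A x = μ • x := by
    by_cases hμ0 : μ = 0
    · obtain ⟨x, hx⟩ := exists_norm_eq V (zero_le_one (α := ℝ))
      refine ⟨x, hx, ?_⟩
      have h1 := A.le_opNorm x
      rw [← hμn', hμ0, norm_zero, zero_mul] at h1
      rw [hμ0, zero_smul]
      exact norm_le_zero_iff.1 h1
    · have h1 := (hA.hasEigenvalue_iff_mem_spectrum hμ0).2 hμ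
      obtain ⟨v, hv⟩ := h1.exists_hasEigenvector
      have hv0 : v ≠ 0 := hv.2
      have hv1 : A v = μ • v := hv.apply_eq_smul
      have hn : ‖v‖ ≠ 0 := norm_ne_zero_iff.2 hv0
      refine ⟨((‖v‖⁻¹ : ℝ) : ℂ) • v, ?_, ?_⟩
      · rw [norm_smul, Complex.norm_real, norm_inv, norm_norm]
        exact inv_mul_cancel₀ hn
      · rw [map_smul, hv1, smul_comm]
  have hTx : μ = ((‖T x‖ ^ 2 : ℝ) : ℂ) := by
    have h1 : inner ℂ (x : H) (B x) = μ := by
      rw [← hAapp, hxμ, Submodule.coe_smul, inner_smul_right, inner_self_eq_norm_sq_to_K]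
      have : ‖(x : H)‖ = 1 := hx1
      rw [this]
      simp
    rw [hBin, inner_self_eq_norm_sq_to_K] at h1
    rw [← h1]
    push_cast
    rfl
  have hAn : ‖A‖ = ‖T x‖ ^ 2 := by
    rw [← hμn', hTx, Complex.norm_real, Real.norm_of_nonneg (by positivity)]
  refine ⟨x, ‖T x‖, x.2, hx1, norm_nonneg _, ?_, ?_⟩
  · rw [← hBapp, ← hAapp, hxμ, ← hTx]
    rfl
  · intro y hy
    have h1 : ‖T y‖ ^ 2 ≤ (‖T x‖ * ‖y‖) ^ 2 := by
      have h2 : ‖T y‖ ^ 2 = RCLike.re (inner ℂ y (B y)) := by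
        rw [hBin, inner_self_eq_norm_sq]
      rw [h2]
      calc RCLike.re (inner ℂ y (B y)) ≤ ‖inner ℂ y (B y)‖ := RCLike.re_le_norm _
        _ ≤ ‖y‖ * ‖B y‖ := norm_inner_le_norm _ _
        _ = ‖y‖ * ‖A ⟨y, hy⟩‖ := rfl
        _ ≤ ‖y‖ * (‖A‖ * ‖(⟨y, hy⟩ : V)‖) := by
            gcongr
            exact A.le_opNorm _
        _ = (‖T x‖ * ‖y‖) ^ 2 := by
            rw [hAn]
            show ‖y‖ * (‖T x‖ ^ 2 * ‖y‖) = _
            ring
    exact (pow_le_pow_iff_left₀ (norm_nonneg _) (by positivity) two_ne_zero).1 h1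

end Pool.Agent.Q113.SH
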